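import Pool.Agent.Helper46.CU.Stmts

/-! Module ALL: from blocks to all pairs. -/

set_option autoImplicit false

namespace Pool.Agent.Helper46.CU

open Finset

theorem all_mt_mono (A A' B : ℕ) (h : A' ≤ A) : mt A' B ≤ mt A B := by
  unfold mt
  have h1 : (A' : ℝ) ≤ A := by exact_mod_cast h
  have h2 : (A' : ℝ) ^ (2 / 3 : ℝ) ≤ (A : ℝ) ^ (2 / 3 : ℝ) :=
    Real.rpow_le_rpow (Nat.cast_nonneg _) h1 (by norm_num)
  have h3 : (A' : ℝ) ^ (1 / 6 : ℝ) ≤ (A : ℝ) ^ (1 / 6 : ℝ) :=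
    Real.rpow_le_rpow (Nat.cast_nonneg _) h1 (by norm_num)
  have h4 : 0 ≤ (B : ℝ) ^ (1 / 2 : ℝ) := by positivity
  nlinarith

theorem all_mt_nonneg (A B : ℕ) : 0 ≤ mt A B := by
  unfold mt
  positivity

theorem all_cover (A B : ℕ) : allS A B ⊆
    (range (Nat.log 2 A + 1)).biUnion fun j => blkS (A / 2 ^ j) B := by
  classical
  rintro ⟨a, b⟩ hp
  unfold allS at hp
  rw [mem_filter, mem_product, mem_Icc, mem_Icc] at hp
  obtain ⟨⟨⟨ha2, haA⟩, hb2, hbB⟩, hab, hsq⟩ := hp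
  simp only at ha2 haA hb2 hbB hab hsq
  have hq : A / a ≠ 0 := by
    have := Nat.div_pos haA (by omega)
    omega
  have h1 : 2 ^ Nat.log 2 (A / a) ≤ A / a := Nat.pow_log_le_self 2 hq
  have h2 : A / a < 2 ^ (Nat.log 2 (A / a) + 1) := Nat.lt_pow_succ_log_self (by norm_num) _
  rw [mem_biUnion]
  refine ⟨Nat.log 2 (A / a), ?_, ?_⟩
  · rw [mem_range]
    have : Nat.log 2 (A / a) ≤ Nat.log 2 A := Nat.log_mono_right (Nat.div_le_self _ _)
    omega
  · unfold blkS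
    rw [mem_filter, mem_product, mem_Icc, mem_Icc]
    have h3 : a ≤ A / 2 ^ Nat.log 2 (A / a) := by
      rw [Nat.le_div_iff_mul_le (by positivity)]
      rw [Nat.le_div_iff_mul_le (by omega)] at h1
      rw [mul_comm]
      exact h1
    have h4 : A / 2 ^ Nat.log 2 (A / a) < 2 * a := by
      rw [Nat.div_lt_iff_lt_mul (by positivity)]
      rw [Nat.div_lt_iff_lt_mul (by omega)] at h2
      calc A < 2 ^ (Nat.log 2 (A / a) + 1) * a := h2
        _ = 2 * a * 2 ^ Nat.log 2 (A / a) := by rw [pow_succ]; ring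
    exact ⟨⟨⟨ha2, h3⟩, hb2, hbB⟩, h4, hab, hsq⟩

theorem all_log (δ : ℝ) (hδ : 0 < δ) (B : ℕ) (hB : 1 ≤ B) :
    ((Nat.log 2 B + 1 : ℕ) : ℝ) ≤ (1 + 1 / (δ * Real.log 2)) * (B : ℝ) ^ δ := by
  have hB0 : (1 : ℝ) ≤ B := by exact_mod_cast hB
  have hl2 : 0 < Real.log 2 := Real.log_pos (by norm_num)
  have h1 : 2 ^ Nat.log 2 B ≤ B := Nat.pow_log_le_self 2 (by omega)
  have h2 : ((2 : ℝ)) ^ Nat.log 2 B ≤ B := by exact_mod_cast h1
  have h3 : (Nat.log 2 B : ℝ) * Real.log 2 ≤ Real.log B := by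
    rw [← Real.log_pow]
    exact Real.log_le_log (by positivity) h2
  have h4 : Real.log B ≤ (B : ℝ) ^ δ / δ := Real.log_le_rpow_div (by positivity) hδ
  have h5 : 1 ≤ (B : ℝ) ^ δ := Real.one_le_rpow hB0 hδ.le
  have h6 : (Nat.log 2 B : ℝ) ≤ 1 / (δ * Real.log 2) * (B : ℝ) ^ δ := by
    have h7 : (Nat.log 2 B : ℝ) ≤ (B : ℝ) ^ δ / δ / Real.log 2 := by
      rw [le_div_iff₀ hl2]
      exact h3.trans h4
    refine h7.trans_eq ?_
    field_simp
  push_cast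
  linarith

theorem st_ALL (h1 : ST_BLK) : ST_ALL := by
  intro ε hε
  obtain ⟨C1, hC1, hblk⟩ := h1 (ε / 2) (by positivity)
  have hl2 : 0 < Real.log 2 := Real.log_pos (by norm_num)
  refine ⟨C1 * (1 + 1 / (ε / 2 * Real.log 2)), by positivity, ?_⟩
  intro A B hA hAB
  have hB : 1 ≤ B := hA.trans hAB
  have hBr : (0 : ℝ) < B := by exact_mod_cast hB
  have hterm : ∀ j ∈ range (Nat.log 2 A + 1), ((blkS (A / 2 ^ j) B).card : ℝ) ≤
      C1 * mt A B * (B : ℝ) ^ (ε / 2) := by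
    intro j _
    have hle : A / 2 ^ j ≤ A := Nat.div_le_self _ _
    by_cases h2 : 2 ≤ A / 2 ^ j
    · refine (hblk (A / 2 ^ j) B h2 (hle.trans hAB)).trans ?_
      have h3 := all_mt_mono A (A / 2 ^ j) B hle
      gcongr
    · have h3 : blkS (A / 2 ^ j) B = ∅ := by
        unfold blkS
        rw [Icc_eq_empty (by omega), empty_product, filter_empty]
      rw [h3, card_empty]
      have h4 := all_mt_nonneg A B
      have h5 : (0 : ℝ) ≤ (B : ℝ) ^ (ε / 2) := by positivity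
      push_cast
      exact mul_nonneg (mul_nonneg hC1.le h4) h5
  have hcard : ((allS A B).card : ℝ) ≤
      ∑ j ∈ range (Nat.log 2 A + 1), ((blkS (A / 2 ^ j) B).card : ℝ) := by
    have h2 := (card_le_card (all_cover A B)).trans card_biUnion_le
    exact_mod_cast h2
  refine hcard.trans ((sum_le_sum hterm).trans ?_)
  rw [sum_const, card_range, nsmul_eq_mul]
  have h3 : ((Nat.log 2 A + 1 : ℕ) : ℝ) ≤
      (1 + 1 / (ε / 2 * Real.log 2)) * (B : ℝ) ^ (ε / 2) := by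
    refine le_trans ?_ (all_log (ε / 2) (by positivity) B hB)
    have : Nat.log 2 A ≤ Nat.log 2 B := Nat.log_mono_right hAB
    exact_mod_cast Nat.add_le_add_right this 1
  have h4 : (B : ℝ) ^ ε = (B : ℝ) ^ (ε / 2) * (B : ℝ) ^ (ε / 2) := by
    rw [← Real.rpow_add hBr]
    congr 1
    ring
  have h5 := all_mt_nonneg A B
  have h6 : (0 : ℝ) ≤ (B : ℝ) ^ (ε / 2) := by positivity
  calc ((Nat.log 2 A + 1 : ℕ) : ℝ) * (C1 * mt A B * (B : ℝ) ^ (ε / 2))
      ≤ ((1 + 1 / (ε / 2 * Real.log 2)) * (B : ℝ) ^ (ε / 2)) *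
        (C1 * mt A B * (B : ℝ) ^ (ε / 2)) :=
        mul_le_mul_of_nonneg_right h3 (mul_nonneg (mul_nonneg hC1.le h5) h6)
    _ = C1 * (1 + 1 / (ε / 2 * Real.log 2)) * mt A B * (B : ℝ) ^ ε := by
        rw [h4]; ring

end Pool.Agent.Helper46.CU
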